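import Mathlib

/-!
# Positive majorants in reproducing kernel Hilbert spaces: the key inequality
-/

open scoped InnerProductSpace ComplexOrder ComplexConjugate

namespace Pool.Agent.PMaj

variable {X : Type*} {H : Type*} [NormedAddCommGroup H] [InnerProductSpace ℂ H]

lemma normsq_sum (K : X → H) (S : Finset X) (a : X → ℂ) :
    ‖∑ x ∈ S, a x • K x‖ ^ 2
      = ∑ x ∈ S, ∑ y ∈ S, (conj (a x) * a y * ⟪K x, K y⟫_ℂ).re := by
  have h : ((‖∑ x ∈ S, a x • K x‖ ^ 2 : ℝ) : ℂ)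
      = ∑ x ∈ S, ∑ y ∈ S, (conj (a x) * a y * ⟪K x, K y⟫_ℂ) := by
    have h0 : ⟪∑ x ∈ S, a x • K x, ∑ x ∈ S, a x • K x⟫_ℂ
        = ((‖∑ x ∈ S, a x • K x‖ : ℝ) : ℂ) ^ 2 := inner_self_eq_norm_sq_to_K _
    push_cast
    rw [← h0, sum_inner]
    refine Finset.sum_congr rfl fun x _ => ?_
    rw [inner_sum]
    refine Finset.sum_congr rfl fun y _ => ?_
    rw [inner_smul_left, inner_smul_right]
    ring
  have h2 := congrArg Complex.re h
  rw [Complex.ofReal_re] at h2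
  rw [h2, Complex.re_sum]
  refine Finset.sum_congr rfl fun x _ => ?_
  rw [Complex.re_sum]

/-- The doubling inequality: if all `Re ⟪K x, K y⟫` are nonnegative. -/
lemma doubling {ι : Type*} (T : Finset ι) (K : X → H)
    (hK : ∀ x y, 0 ≤ (⟪K x, K y⟫_ℂ).re) (S : Finset X) (c : X → ℝ) (hc : ∀ x ∈ S, 0 ≤ c x)
    (e : X → ι → ℂ) (he : ∀ x, ∑ i ∈ T, ‖e x i‖ ^ 2 ≤ 1) :
    ∑ i ∈ T, ‖∑ x ∈ S, ((c x : ℂ) * conj (e x i)) • K x‖ ^ 2
      ≤ 2 * ‖∑ x ∈ S, (c x : ℂ) • K x‖ ^ 2 := by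
  have h1 : ∑ i ∈ T, ‖∑ x ∈ S, ((c x : ℂ) * conj (e x i)) • K x‖ ^ 2
      ≤ ∑ i ∈ T, (‖∑ x ∈ S, ((c x : ℂ) * conj (e x i)) • K x‖ ^ 2
        + ‖∑ x ∈ S, ((c x : ℂ) * e x i) • K x‖ ^ 2) :=
    Finset.sum_le_sum fun i _ => by nlinarith [sq_nonneg ‖∑ x ∈ S, ((c x : ℂ) * e x i) • K x‖]
  refine h1.trans ?_
  have h2 : ∀ i ∈ T, (‖∑ x ∈ S, ((c x : ℂ) * conj (e x i)) • K x‖ ^ 2
        + ‖∑ x ∈ S, ((c x : ℂ) * e x i) • K x‖ ^ 2)
      = ∑ x ∈ S, ∑ y ∈ S, c x * c y * (2 * (conj (e x i) * e y i).re)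
          * (⟪K x, K y⟫_ℂ).re := by
    intro i _
    rw [normsq_sum K S (fun x => (c x : ℂ) * conj (e x i)),
      normsq_sum K S (fun x => (c x : ℂ) * e x i), ← Finset.sum_add_distrib]
    refine Finset.sum_congr rfl fun x _ => ?_
    rw [← Finset.sum_add_distrib]
    refine Finset.sum_congr rfl fun y _ => ?_
    simp only [map_mul, Complex.conj_conj, Complex.conj_ofReal, Complex.mul_re, Complex.mul_im,
      Complex.ofReal_re, Complex.ofReal_im, Complex.conj_re, Complex.conj_im]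
    ring
  rw [Finset.sum_congr rfl h2, Finset.sum_comm, normsq_sum K S (fun x => (c x : ℂ)),
    Finset.mul_sum]
  refine Finset.sum_le_sum fun x hx => ?_
  rw [Finset.sum_comm, Finset.mul_sum]
  refine Finset.sum_le_sum fun y hy => ?_
  have h3 : ∑ i ∈ T, c x * c y * (2 * (conj (e x i) * e y i).re) * (⟪K x, K y⟫_ℂ).re
      = c x * c y * (⟪K x, K y⟫_ℂ).re * ∑ i ∈ T, 2 * (conj (e x i) * e y i).re := by
    rw [Finset.mul_sum]
    refine Finset.sum_congr rfl fun i _ => ?_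
    ring
  rw [h3]
  have h4 : ∑ i ∈ T, 2 * (conj (e x i) * e y i).re ≤ 2 := by
    have h5 : ∀ i ∈ T, 2 * (conj (e x i) * e y i).re ≤ ‖e x i‖ ^ 2 + ‖e y i‖ ^ 2 := by
      intro i _
      have h6 : (conj (e x i) * e y i).re ≤ ‖e x i‖ * ‖e y i‖ := by
        have h7 := Complex.re_le_norm (conj (e x i) * e y i)
        rwa [norm_mul, Complex.norm_conj] at h7
      nlinarith [sq_nonneg (‖e x i‖ - ‖e y i‖)]
    have h8 := Finset.sum_le_sum h5
    rw [Finset.sum_add_distrib] at h8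
    linarith [he x, he y]
  have h9 : (conj (c x : ℂ) * (c y : ℂ) * ⟪K x, K y⟫_ℂ).re = c x * c y * (⟪K x, K y⟫_ℂ).re := by
    simp only [Complex.conj_ofReal, Complex.mul_re, Complex.mul_im,
      Complex.ofReal_re, Complex.ofReal_im]
    ring
  rw [h9]
  have h10 : 0 ≤ c x * c y * (⟪K x, K y⟫_ℂ).re :=
    mul_nonneg (mul_nonneg (hc x hx) (hc y hy)) (hK x y)
  nlinarith

/-- The key inequality for finitely many functions. -/
lemma key_finite {ι : Type*} (T : Finset ι) (K : X → H)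
    (hK : ∀ x y, 0 ≤ (⟪K x, K y⟫_ℂ).re) (S : Finset X) (c : X → ℝ) (hc : ∀ x ∈ S, 0 ≤ c x)
    (f : ι → H) :
    ∑ x ∈ S, c x * √(∑ i ∈ T, ‖⟪K x, f i⟫_ℂ‖ ^ 2)
      ≤ √(2 * ∑ i ∈ T, ‖f i‖ ^ 2) * ‖∑ x ∈ S, (c x : ℂ) • K x‖ := by
  classical
  set N : X → ℝ := fun x => √(∑ i ∈ T, ‖⟪K x, f i⟫_ℂ‖ ^ 2) with hN
  have hN0 : ∀ x, 0 ≤ N x := fun x => Real.sqrt_nonneg _
  have hNsq : ∀ x, N x ^ 2 = ∑ i ∈ T, ‖⟪K x, f i⟫_ℂ‖ ^ 2 := fun x =>
    Real.sq_sqrt (Finset.sum_nonneg fun i _ => sq_nonneg _)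
  set e : X → ι → ℂ := fun x i => conj (⟪K x, f i⟫_ℂ) / (N x : ℂ) with he
  have he1 : ∀ x, ∑ i ∈ T, ‖e x i‖ ^ 2 ≤ 1 := by
    intro x
    have h1 : ∀ i ∈ T, ‖e x i‖ ^ 2 = ‖⟪K x, f i⟫_ℂ‖ ^ 2 / N x ^ 2 := by
      intro i _
      rw [he]
      simp only [norm_div, Complex.norm_conj, Complex.norm_real, Real.norm_eq_abs]
      rw [div_pow, sq_abs]
    rw [Finset.sum_congr rfl h1, ← Finset.sum_div, ← hNsq]
    exact div_self_le_one _
  have he2 : ∀ x, (N x : ℂ) = ∑ i ∈ T, e x i * ⟪K x, f i⟫_ℂ := by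
    intro x
    have h1 : ∀ i ∈ T, e x i * ⟪K x, f i⟫_ℂ = ((‖⟪K x, f i⟫_ℂ‖ ^ 2 / N x : ℝ) : ℂ) := by
      intro i _
      simp only [he]
      rw [div_mul_eq_mul_div, ← Complex.normSq_eq_conj_mul_self, Complex.normSq_eq_norm_sq]
      push_cast
      ring
    rw [Finset.sum_congr rfl h1, ← Complex.ofReal_sum, ← Finset.sum_div, ← hNsq]
    congr 1
    by_cases h0 : N x = 0
    · rw [h0]; simp
    · field_simp
  have hmain : ((∑ x ∈ S, c x * N x : ℝ) : ℂ)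
      = ∑ i ∈ T, ⟪∑ x ∈ S, ((c x : ℂ) * conj (e x i)) • K x, f i⟫_ℂ := by
    push_cast
    have h1 : ∀ i ∈ T, ⟪∑ x ∈ S, ((c x : ℂ) * conj (e x i)) • K x, f i⟫_ℂ
        = ∑ x ∈ S, (c x : ℂ) * (e x i * ⟪K x, f i⟫_ℂ) := by
      intro i _
      rw [sum_inner]
      refine Finset.sum_congr rfl fun x _ => ?_
      rw [inner_smul_left, map_mul, Complex.conj_conj, Complex.conj_ofReal]
      ring
    rw [Finset.sum_congr rfl h1, Finset.sum_comm]
    refine Finset.sum_congr rfl fun x _ => ?_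
    rw [← Finset.mul_sum, ← he2 x]
  have h3 : ∑ x ∈ S, c x * N x
      ≤ ∑ i ∈ T, ‖∑ x ∈ S, ((c x : ℂ) * conj (e x i)) • K x‖ * ‖f i‖ := by
    have h4 : ∑ x ∈ S, c x * N x ≤ ‖((∑ x ∈ S, c x * N x : ℝ) : ℂ)‖ := by
      rw [Complex.norm_real]
      exact le_abs_self _
    rw [hmain] at h4
    refine h4.trans ((norm_sum_le _ _).trans ?_)
    exact Finset.sum_le_sum fun i _ => norm_inner_le_norm _ _
  refine h3.trans ?_
  have h5 := Finset.sum_mul_sq_le_sq_mul_sq T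
    (fun i => ‖∑ x ∈ S, ((c x : ℂ) * conj (e x i)) • K x‖) (fun i => ‖f i‖)
  have h6 := doubling T K hK S c hc e he1
  have h7 : 0 ≤ ∑ i ∈ T, ‖f i‖ ^ 2 := Finset.sum_nonneg fun i _ => sq_nonneg _
  have h8 : 0 ≤ ∑ i ∈ T, ‖∑ x ∈ S, ((c x : ℂ) * conj (e x i)) • K x‖ * ‖f i‖ :=
    Finset.sum_nonneg fun i _ => mul_nonneg (norm_nonneg _) (norm_nonneg _)
  refine le_of_sq_le_sq ?_ (mul_nonneg (Real.sqrt_nonneg _) (norm_nonneg _)) |> id
  rw [mul_pow, Real.sq_sqrt (by positivity)]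
  refine h5.trans ?_
  nlinarith [mul_le_mul_of_nonneg_right h6 h7]

/-- The key inequality for square summable families. -/
lemma key_family {ι : Type*} (K : X → H)
    (hK : ∀ x y, 0 ≤ (⟪K x, K y⟫_ℂ).re) (S : Finset X) (c : X → ℝ) (hc : ∀ x ∈ S, 0 ≤ c x)
    (f : ι → H) (hf : Summable fun i => ‖f i‖ ^ 2) :
    ∑ x ∈ S, c x * √(∑' i, ‖⟪K x, f i⟫_ℂ‖ ^ 2)
      ≤ √(2 * ∑' i, ‖f i‖ ^ 2) * ‖∑ x ∈ S, (c x : ℂ) • K x‖ := by
  have hs : ∀ x, Summable fun i => ‖⟪K x, f i⟫_ℂ‖ ^ 2 := by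
    intro x
    refine Summable.of_nonneg_of_le (fun i => sq_nonneg _) (fun i => ?_) (hf.mul_left (‖K x‖ ^ 2))
    rw [← mul_pow]
    exact pow_le_pow_left₀ (norm_nonneg _) (norm_inner_le_norm _ _) 2
  have ht : Filter.Tendsto (fun T : Finset ι => ∑ x ∈ S, c x * √(∑ i ∈ T, ‖⟪K x, f i⟫_ℂ‖ ^ 2))
      Filter.atTop (nhds (∑ x ∈ S, c x * √(∑' i, ‖⟪K x, f i⟫_ℂ‖ ^ 2))) := by
    refine tendsto_finsetSum _ fun x _ => ?_
    exact ((hs x).hasSum.sqrt).const_mul (c x)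
  refine le_of_tendsto' ht fun T => ?_
  refine (key_finite T K hK S c hc f).trans ?_
  refine mul_le_mul_of_nonneg_right (Real.sqrt_le_sqrt ?_) (norm_nonneg _)
  exact mul_le_mul_of_nonneg_left (hf.sum_le_tsum _ fun i _ => sq_nonneg _) (by norm_num)

/-- A Mazur-Orlicz argument: from the key inequality to the element. -/
lemma exists_of_key [CompleteSpace H] (K : X → H) (a : X → ℝ) (M : ℝ) (hM : 0 ≤ M)
    (h : ∀ (S : Finset X) (c : X → ℝ), (∀ x ∈ S, 0 ≤ c x) →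
      ∑ x ∈ S, c x * a x ≤ M * ‖∑ x ∈ S, (c x : ℂ) • K x‖) :
    ∃ G : H, ‖G‖ ≤ M ∧ ∀ x, a x ≤ (⟪K x, G⟫_ℂ).re := by
  classical
  set A : (X →₀ NNReal) →ₗ[NNReal] H := Finsupp.linearCombination NNReal K with hA
  set B : (X →₀ NNReal) →ₗ[NNReal] ℝ := Finsupp.linearCombination NNReal a with hB
  have hkey : ∀ c : X →₀ NNReal, B c ≤ M * ‖A c‖ := by
    intro c
    have h1 := h c.support (fun x => (c x : ℝ)) (fun x _ => (c x).2)
    have h2 : B c = ∑ x ∈ c.support, (c x : ℝ) * a x := by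
      rw [hB, Finsupp.linearCombination_apply]
      rfl
    have h3 : A c = ∑ x ∈ c.support, ((c x : ℝ) : ℂ) • K x := by
      rw [hA, Finsupp.linearCombination_apply]
      rfl
    rw [h2, h3]
    exact h1
  let s : PointedCone ℝ (H × ℝ) :=
    { carrier := {p | ∃ c : X →₀ NNReal, M * ‖p.1 + A c‖ ≤ p.2 + B c}
      add_mem' := by
        rintro p q ⟨c, hc⟩ ⟨d, hd⟩
        refine ⟨c + d, ?_⟩
        rw [map_add, map_add, Prod.fst_add, Prod.snd_add]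
        have h1 : p.1 + q.1 + (A c + A d) = (p.1 + A c) + (q.1 + A d) := by abel
        rw [h1]
        have h2 := mul_le_mul_of_nonneg_left (norm_add_le (p.1 + A c) (q.1 + A d)) hM
        linarith
      zero_mem' := ⟨0, by simp⟩
      smul_mem' := by
        rintro t p ⟨c, hc⟩
        let t' : NNReal := ⟨t.1, t.2⟩
        refine ⟨t' • c, ?_⟩
        rw [map_smul, map_smul]
        have h1 : (t • p).1 + t' • A c = (t : ℝ) • (p.1 + A c) := by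
          rw [smul_add]; rfl
        have h2 : (t • p).2 + t' • B c = (t : ℝ) * (p.2 + B c) := by
          rw [mul_add]; rfl
        have h3 : ‖(t : ℝ) • (p.1 + A c)‖ = (t : ℝ) * ‖p.1 + A c‖ := by
          rw [norm_smul, Real.norm_eq_abs, abs_of_nonneg t.2]
        rw [h1, h2, h3]
        have h4 : (0 : ℝ) ≤ (t : ℝ) := t.2
        nlinarith [mul_le_mul_of_nonneg_left hc h4] }
  let φ : (H × ℝ) →ₗ.[ℝ] ℝ :=
    { domain := Submodule.prod ⊥ ⊤
      toFun := (LinearMap.snd ℝ H ℝ).comp (Submodule.subtype _) }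
  obtain ⟨g, hg1, hg2⟩ := riesz_extension s φ (by
      rintro ⟨⟨v, t⟩, hv⟩ ⟨c, hc⟩
      have hv0 : v = 0 := by simpa using hv.1
      subst hv0
      change 0 ≤ t
      have h1 := hkey c
      change M * ‖(0 : H) + A c‖ ≤ t + B c at hc
      rw [zero_add] at hc
      linarith) (by
      rintro ⟨v, t⟩
      refine ⟨⟨(0, M * ‖v‖ - t), ⟨rfl, trivial⟩⟩, ⟨0, ?_⟩⟩
      change M * ‖(0 : H) + v + A 0‖ ≤ M * ‖v‖ - t + t + B 0
      rw [map_zero, map_zero]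
      simp)
  have hg3 : ∀ t : ℝ, g (0, t) = t := fun t => hg1 ⟨(0, t), ⟨rfl, trivial⟩⟩
  have hg4 : ∀ (v : H) (t : ℝ), g (v, t) = g (v, 0) + t := by
    intro v t
    have h1 : ((v, t) : H × ℝ) = (v, 0) + (0, t) := by simp
    rw [h1, map_add, hg3]
  let L : H →ₗ[ℝ] ℝ := -(g.comp (LinearMap.inl ℝ H ℝ))
  have hL : ∀ v, L v = - g (v, 0) := fun v => rfl
  have hL1 : ∀ v, L v ≤ M * ‖v‖ := by
    intro v
    have h1 : 0 ≤ g (v, M * ‖v‖) := hg2 _ ⟨0, by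
      change M * ‖v + A 0‖ ≤ M * ‖v‖ + B 0
      rw [map_zero, map_zero]
      simp⟩
    rw [hg4] at h1
    rw [hL]
    linarith
  have hL2 : ∀ v, ‖L v‖ ≤ M * ‖v‖ := by
    intro v
    rw [Real.norm_eq_abs, abs_le]
    refine ⟨?_, hL1 v⟩
    have h1 := hL1 (-v)
    rw [map_neg, norm_neg] at h1
    linarith
  letI : InnerProductSpace ℝ H := InnerProductSpace.rclikeToReal ℂ H
  let L' : StrongDual ℝ H := L.mkContinuous M hL2
  refine ⟨(InnerProductSpace.toDual ℝ H).symm L', ?_, fun x => ?_⟩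
  · rw [LinearIsometryEquiv.norm_map]
    exact LinearMap.mkContinuous_norm_le _ hM _
  · have h1 : (⟪K x, (InnerProductSpace.toDual ℝ H).symm L'⟫_ℂ).re = L (K x) := by
      have h2 : ⟪(InnerProductSpace.toDual ℝ H).symm L', K x⟫_ℝ = L' (K x) :=
        InnerProductSpace.toDual_symm_apply
      rw [real_inner_comm] at h2
      exact h2
    rw [h1, hL]
    have h3 : 0 ≤ g (-K x, -a x) := hg2 _ ⟨Finsupp.single x 1, by
      change M * ‖-K x + A (Finsupp.single x 1)‖ ≤ -a x + B (Finsupp.single x 1)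
      rw [hA, hB, Finsupp.linearCombination_single, Finsupp.linearCombination_single]
      simp⟩
    rw [hg4] at h3
    have h4 : ((-K x, 0) : H × ℝ) = -(K x, 0) := by simp
    rw [h4, map_neg] at h3
    linarith

end Pool.Agent.PMaj
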