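import Mathlib
import Pool.Agent.PMaj.Key

/-!
# Positive majorants in reproducing kernel Hilbert spaces: the two point Pick property
-/

open scoped InnerProductSpace ComplexOrder ComplexConjugate

namespace Pool.Agent.PMaj

variable {X : Type*} {H : Type*} [NormedAddCommGroup H] [InnerProductSpace ℂ H]

/-- Positive majorants, for kernels with nonnegative real part after division by
`δ x * conj (δ y)`. -/
theorem majorant [CompleteSpace H] {ι : Type*} (K : X → H) (δ : X → ℂ) (hδ : ∀ x, δ x ≠ 0)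
    (hK : ∀ x y, 0 ≤ (⟪K x, K y⟫_ℂ / (δ x * conj (δ y))).re) (f : ι → H)
    (hf : Summable fun i => ‖f i‖ ^ 2) :
    ∃ G : H, ‖G‖ ≤ √(2 * ∑' i, ‖f i‖ ^ 2) ∧
      ∀ x, √(∑' i, ‖⟪K x, f i⟫_ℂ‖ ^ 2) / ‖δ x‖ ≤ (⟪K x, G⟫_ℂ / δ x).re := by
  set K' : X → H := fun x => conj ((δ x)⁻¹) • K x with hK'
  have h1 : ∀ (x : X) (v : H), ⟪K' x, v⟫_ℂ = ⟪K x, v⟫_ℂ / δ x := by
    intro x v
    rw [hK']
    simp only
    rw [inner_smul_left, Complex.conj_conj]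
    ring
  have h2 : ∀ x y, 0 ≤ (⟪K' x, K' y⟫_ℂ).re := by
    intro x y
    rw [h1]
    have h3 : ⟪K x, K' y⟫_ℂ / δ x = ⟪K x, K y⟫_ℂ / (δ x * conj (δ y)) := by
      simp only [hK']
      rw [inner_smul_right, map_inv₀]
      have h4 : conj (δ y) ≠ 0 := (map_ne_zero _).2 (hδ y)
      field_simp
    rw [h3]
    exact hK x y
  obtain ⟨G, hG1, hG2⟩ := exists_of_key K' (fun x => √(∑' i, ‖⟪K' x, f i⟫_ℂ‖ ^ 2))
    (√(2 * ∑' i, ‖f i‖ ^ 2)) (Real.sqrt_nonneg _)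
    (fun S c hc => key_family K' h2 S c hc f hf)
  refine ⟨G, hG1, fun x => ?_⟩
  have h5 := hG2 x
  rw [h1] at h5
  refine le_trans (le_of_eq ?_) h5
  have h6 : ∀ i, ‖⟪K' x, f i⟫_ℂ‖ ^ 2 = ‖⟪K x, f i⟫_ℂ‖ ^ 2 / ‖δ x‖ ^ 2 := by
    intro i
    rw [h1, norm_div, div_pow]
  simp only [h6]
  rw [tsum_div_const, Real.sqrt_div' _ (sq_nonneg _), Real.sqrt_sq (norm_nonneg _)]

/-- The scalar two point Pick property: for all `x 0, x 1 ∈ X` and `w 0, w 1 ∈ ℂ`, if the matrix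
`((1 - w i * conj (w j)) * ⟪K (x i), K (x j)⟫)` is positive semidefinite, then some multiplier of
norm at most one takes the values `w 0, w 1` at `x 0, x 1`. An element `v` of `H` is seen as the
function `y ↦ ⟪K y, v⟫`. -/
def TwoPointPick (K : X → H) : Prop :=
  ∀ (x : Fin 2 → X) (w : Fin 2 → ℂ),
    Matrix.PosSemidef (Matrix.of fun i j : Fin 2 =>
      (1 - w i * conj (w j)) * ⟪K (x i), K (x j)⟫_ℂ) →
    ∃ φ : X → ℂ, (∀ i, φ (x i) = w i) ∧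
      ∀ v : H, ∃ u : H, (∀ y, φ y * ⟪K y, v⟫_ℂ = ⟪K y, u⟫_ℂ) ∧ ‖u‖ ≤ ‖v‖

/-- The kernel `⟪K x, K y⟫` has nonnegative real part after division by `δ x * conj (δ y)`, where
`δ` has no zeros, and some element of `H` divided by `δ` has positive real part. -/
def PositiveFor (K : X → H) (δ : X → ℂ) : Prop :=
  (∀ x, δ x ≠ 0) ∧ (∀ x y, 0 ≤ (⟪K x, K y⟫_ℂ / (δ x * conj (δ y))).re) ∧
    ∃ h : H, ∀ x, 0 < (⟪K x, h⟫_ℂ / δ x).re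

/-- The multiplier vanishing at `x` and extremal at `y`. -/
lemma exists_mult (K : X → H) (hne : ∀ x y, ⟪K x, K y⟫_ℂ ≠ 0) (hP : TwoPointPick K) (x y : X) :
    ∃ φ : X → ℂ, φ x = 0 ∧
      φ y = ((√(1 - ‖⟪K x, K y⟫_ℂ‖ ^ 2 / (‖K x‖ ^ 2 * ‖K y‖ ^ 2)) : ℝ) : ℂ) ∧
      ∀ v : H, ∃ u : H, (∀ z, φ z * ⟪K z, v⟫_ℂ = ⟪K z, u⟫_ℂ) ∧ ‖u‖ ≤ ‖v‖ := by
  set w : ℝ := √(1 - ‖⟪K x, K y⟫_ℂ‖ ^ 2 / (‖K x‖ ^ 2 * ‖K y‖ ^ 2)) with hw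
  have hp : ∀ z, 0 < ‖K z‖ := by
    intro z
    rw [norm_pos_iff]
    intro h
    apply hne z z
    rw [h, inner_zero_left]
  have hpx := hp x
  have hpy := hp y
  have hcs : ‖⟪K x, K y⟫_ℂ‖ ^ 2 ≤ ‖K x‖ ^ 2 * ‖K y‖ ^ 2 := by
    rw [← mul_pow]
    exact pow_le_pow_left₀ (norm_nonneg _) (norm_inner_le_norm _ _) 2
  have hw2 : w ^ 2 = 1 - ‖⟪K x, K y⟫_ℂ‖ ^ 2 / (‖K x‖ ^ 2 * ‖K y‖ ^ 2) := by
    rw [hw, Real.sq_sqrt]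
    rw [sub_nonneg]
    exact div_le_one_of_le₀ hcs (by positivity)
  obtain ⟨φ, h1, h2⟩ := hP ![x, y] ![0, (w : ℂ)] (by
    have h3 : (Matrix.of fun i j : Fin 2 =>
        (1 - (![0, (w : ℂ)] : Fin 2 → ℂ) i * conj ((![0, (w : ℂ)] : Fin 2 → ℂ) j))
          * ⟪K ((![x, y] : Fin 2 → X) i), K ((![x, y] : Fin 2 → X) j)⟫_ℂ)
        = ((1 / ‖K x‖ ^ 2 : ℝ) : ℂ) • Matrix.vecMulVec
            (star (![((‖K x‖ ^ 2 : ℝ) : ℂ), ⟪K x, K y⟫_ℂ] : Fin 2 → ℂ))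
            (![((‖K x‖ ^ 2 : ℝ) : ℂ), ⟪K x, K y⟫_ℂ] : Fin 2 → ℂ) := by
      have hxx : ⟪K x, K x⟫_ℂ = ((‖K x‖ ^ 2 : ℝ) : ℂ) := by
        have := inner_self_eq_norm_sq_to_K (𝕜 := ℂ) (K x)
        push_cast
        exact this
      have hyy : ⟪K y, K y⟫_ℂ = ((‖K y‖ ^ 2 : ℝ) : ℂ) := by
        have := inner_self_eq_norm_sq_to_K (𝕜 := ℂ) (K y)
        push_cast
        exact this
      have hx0 : (‖K x‖ : ℂ) ≠ 0 := by exact_mod_cast hpx.ne'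
      have hy0 : (‖K y‖ : ℂ) ≠ 0 := by exact_mod_cast hpy.ne'
      ext i j
      fin_cases i <;> fin_cases j
      · simp [Matrix.vecMulVec]
        field_simp
      · simp [Matrix.vecMulVec]
        field_simp
      · simp [Matrix.vecMulVec]
        field_simp
      · simp [Matrix.vecMulVec]
        have h5 : (w : ℂ) * (w : ℂ)
            = 1 - (‖⟪K x, K y⟫_ℂ‖ : ℂ) ^ 2 / ((‖K x‖ : ℂ) ^ 2 * (‖K y‖ : ℂ) ^ 2) := by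
          have := congrArg (fun r : ℝ => (r : ℂ)) hw2
          push_cast at this
          rw [← this]
          ring
        have h6 : ⟪K y, K x⟫_ℂ * ⟪K x, K y⟫_ℂ = (‖⟪K x, K y⟫_ℂ‖ : ℂ) ^ 2 := by
          rw [← inner_conj_symm, ← Complex.normSq_eq_conj_mul_self, Complex.normSq_eq_norm_sq]
          push_cast
          rfl
        rw [h5, h6]
        field_simp
        ring
    rw [h3]
    refine Matrix.PosSemidef.smul (Matrix.posSemidef_vecMulVec_star_self _) ?_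
    have : (0 : ℝ) ≤ 1 / ‖K x‖ ^ 2 := by positivity
    exact_mod_cast this)
  refine ⟨φ, ?_, ?_, h2⟩
  · simpa using h1 0
  · simpa using h1 1

/-- The real part of the normalised kernel exceeds one half. -/
lemma half_lt_re (K : X → H) (hne : ∀ x y, ⟪K x, K y⟫_ℂ ≠ 0) (hP : TwoPointPick K) (z x y : X) :
    1 / 2 < (⟪K x, K y⟫_ℂ * ((‖K z‖ ^ 2 : ℝ) : ℂ) / (⟪K x, K z⟫_ℂ * ⟪K z, K y⟫_ℂ)).re := by
  have hp : ∀ z, 0 < ‖K z‖ := by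
    intro z
    rw [norm_pos_iff]
    intro h
    apply hne z z
    rw [h, inner_zero_left]
  have hs : ∀ z, ⟪K z, K z⟫_ℂ = ((‖K z‖ ^ 2 : ℝ) : ℂ) := by
    intro z
    have := inner_self_eq_norm_sq_to_K (𝕜 := ℂ) (K z)
    push_cast
    exact this
  have hcs : ∀ x y, ‖⟪K x, K y⟫_ℂ‖ ^ 2 ≤ ‖K x‖ ^ 2 * ‖K y‖ ^ 2 := by
    intro x y
    rw [← mul_pow]
    exact pow_le_pow_left₀ (norm_nonneg _) (norm_inner_le_norm _ _) 2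
  have hpx := hp x
  have hpy := hp y
  have hpz := hp z
  obtain ⟨φ, hφx, hφy, hφ⟩ := exists_mult K hne hP x y
  set w : ℝ := √(1 - ‖⟪K x, K y⟫_ℂ‖ ^ 2 / (‖K x‖ ^ 2 * ‖K y‖ ^ 2)) with hw
  have hw0 : 0 ≤ w := Real.sqrt_nonneg _
  have hw2 : w ^ 2 = 1 - ‖⟪K x, K y⟫_ℂ‖ ^ 2 / (‖K x‖ ^ 2 * ‖K y‖ ^ 2) := by
    rw [hw, Real.sq_sqrt]
    rw [sub_nonneg]
    exact div_le_one_of_le₀ (hcs x y) (by positivity)
  have hx0 : (‖K x‖ : ℂ) ≠ 0 := by exact_mod_cast hpx.ne'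
  have hy0 : (‖K y‖ : ℂ) ≠ 0 := by exact_mod_cast hpy.ne'
  have hz0 : (‖K z‖ : ℂ) ≠ 0 := by exact_mod_cast hpz.ne'
  -- the orthogonal part
  have horth : ∀ a b : X, ‖K b - (⟪K a, K b⟫_ℂ / ((‖K a‖ ^ 2 : ℝ) : ℂ)) • K a‖ ^ 2
      = ‖K b‖ ^ 2 - ‖⟪K a, K b⟫_ℂ‖ ^ 2 / ‖K a‖ ^ 2 := by
    intro a b
    have ha0 : ‖K a‖ ≠ 0 := (hp a).ne'
    rw [@norm_sub_sq ℂ, norm_smul, inner_smul_right, norm_div, Complex.norm_real,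
      Real.norm_eq_abs, abs_of_nonneg (sq_nonneg ‖K a‖)]
    have h1 : ⟪K a, K b⟫_ℂ / ((‖K a‖ ^ 2 : ℝ) : ℂ) * ⟪K b, K a⟫_ℂ
        = ((‖⟪K a, K b⟫_ℂ‖ ^ 2 / ‖K a‖ ^ 2 : ℝ) : ℂ) := by
      rw [← inner_conj_symm (K b), div_mul_eq_mul_div, Complex.mul_conj, Complex.normSq_eq_norm_sq]
      push_cast
      rfl
    rw [h1]
    simp only [RCLike.re_to_complex, Complex.ofReal_re]
    field_simp
    ring
  have horth2 : ∀ a b : X, ⟪K a, K b - (⟪K a, K b⟫_ℂ / ((‖K a‖ ^ 2 : ℝ) : ℂ)) • K a⟫_ℂ = 0 := by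
    intro a b
    have ha0 : (‖K a‖ : ℂ) ≠ 0 := by exact_mod_cast (hp a).ne'
    rw [inner_sub_right, inner_smul_right, hs]
    push_cast
    field_simp
    ring
  -- step 1
  obtain ⟨u, hu1, hu2⟩ := hφ ((w : ℂ) • K y)
  set N : H := K y - (⟪K x, K y⟫_ℂ / ((‖K x‖ ^ 2 : ℝ) : ℂ)) • K x with hN
  have hNn : ‖N‖ ^ 2 = w ^ 2 * ‖K y‖ ^ 2 := by
    rw [hN, horth x y, hw2]
    field_simp
  have huN : ⟪N, u⟫_ℂ = ((w ^ 2 * ‖K y‖ ^ 2 : ℝ) : ℂ) := by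
    rw [hN, inner_sub_left, inner_smul_left, ← hu1, ← hu1, hφx, hφy, inner_smul_right, hs]
    push_cast
    ring
  have hu3 : ‖u‖ ^ 2 ≤ w ^ 2 * ‖K y‖ ^ 2 := by
    rw [norm_smul, Complex.norm_real, Real.norm_eq_abs, abs_of_nonneg hw0] at hu2
    rw [← mul_pow]
    exact pow_le_pow_left₀ (norm_nonneg _) hu2 2
  have huN2 : u = N := by
    have h1 : ‖N - u‖ ^ 2 ≤ 0 := by
      rw [@norm_sub_sq ℂ, huN, hNn]
      simp only [RCLike.re_to_complex, Complex.ofReal_re]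
      linarith
    have h2 : N - u = 0 := by
      rw [← norm_eq_zero]
      exact pow_eq_zero_iff (two_ne_zero) |>.1 (le_antisymm h1 (sq_nonneg _))
    exact (sub_eq_zero.1 h2).symm
  -- step 2
  have h2 : φ z * ((w : ℂ) * ⟪K z, K y⟫_ℂ)
      = ⟪K z, K y⟫_ℂ - ⟪K x, K y⟫_ℂ / ((‖K x‖ ^ 2 : ℝ) : ℂ) * ⟪K z, K x⟫_ℂ := by
    have h3 := hu1 z
    rw [huN2, hN, inner_sub_right, inner_smul_right, inner_smul_right] at h3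
    exact h3
  -- step 3
  set α : ℝ := ‖⟪K x, K z⟫_ℂ‖ ^ 2 / (‖K x‖ ^ 2 * ‖K z‖ ^ 2) with hα
  set β : ℝ := ‖⟪K z, K y⟫_ℂ‖ ^ 2 / (‖K z‖ ^ 2 * ‖K y‖ ^ 2) with hβ
  have hnxz : 0 < ‖⟪K x, K z⟫_ℂ‖ := norm_pos_iff.2 (hne x z)
  have hnzy : 0 < ‖⟪K z, K y⟫_ℂ‖ := norm_pos_iff.2 (hne z y)
  have hnxy : 0 < ‖⟪K x, K y⟫_ℂ‖ := norm_pos_iff.2 (hne x y)
  have hα0 : 0 < α := by positivity
  have hβ0 : 0 < β := by positivity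
  have hα1 : α ≤ 1 := div_le_one_of_le₀ (hcs x z) (by positivity)
  have h3 : ‖φ z‖ ^ 2 ≤ 1 - α := by
    obtain ⟨v, hv1, hv2⟩ := hφ (K z)
    have h4 : ⟪K z - (⟪K x, K z⟫_ℂ / ((‖K x‖ ^ 2 : ℝ) : ℂ)) • K x, v⟫_ℂ
        = φ z * ((‖K z‖ ^ 2 : ℝ) : ℂ) := by
      rw [inner_sub_left, inner_smul_left, ← hv1, ← hv1, hφx, hs]
      ring
    have h5 := norm_inner_le_norm (𝕜 := ℂ)
      (K z - (⟪K x, K z⟫_ℂ / ((‖K x‖ ^ 2 : ℝ) : ℂ)) • K x) v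
    rw [h4, norm_mul, Complex.norm_real, Real.norm_eq_abs, abs_of_nonneg (sq_nonneg ‖K z‖)] at h5
    have h6 := pow_le_pow_left₀ (by positivity) h5 2
    rw [mul_pow, mul_pow, horth x z] at h6
    have h7 : ‖v‖ ^ 2 ≤ ‖K z‖ ^ 2 := pow_le_pow_left₀ (norm_nonneg _) hv2 2
    have h8 : 0 ≤ ‖K z‖ ^ 2 - ‖⟪K x, K z⟫_ℂ‖ ^ 2 / ‖K x‖ ^ 2 := by
      rw [← horth x z]
      exact sq_nonneg _
    have h9 : ‖φ z‖ ^ 2 * (‖K z‖ ^ 2) ^ 2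
        ≤ (‖K z‖ ^ 2 - ‖⟪K x, K z⟫_ℂ‖ ^ 2 / ‖K x‖ ^ 2) * ‖K z‖ ^ 2 :=
      h6.trans (mul_le_mul_of_nonneg_left h7 h8)
    have h10 : (‖K z‖ ^ 2 - ‖⟪K x, K z⟫_ℂ‖ ^ 2 / ‖K x‖ ^ 2) * ‖K z‖ ^ 2
        = (1 - α) * (‖K z‖ ^ 2) ^ 2 := by
      rw [hα]
      field_simp
    rw [h10] at h9
    exact le_of_mul_le_mul_right h9 (by positivity)
  set Q : ℂ := ⟪K x, K y⟫_ℂ * ((‖K z‖ ^ 2 : ℝ) : ℂ) / (⟪K x, K z⟫_ℂ * ⟪K z, K y⟫_ℂ) with hQ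
  have hQn : ‖Q‖ ^ 2 = ‖⟪K x, K y⟫_ℂ‖ ^ 2 * (‖K z‖ ^ 2) ^ 2
      / (‖⟪K x, K z⟫_ℂ‖ ^ 2 * ‖⟪K z, K y⟫_ℂ‖ ^ 2) := by
    rw [hQ, norm_div, norm_mul, norm_mul, Complex.norm_real, Real.norm_eq_abs,
      abs_of_nonneg (sq_nonneg ‖K z‖), div_pow, mul_pow, mul_pow]
  have hQ0 : 0 < ‖Q‖ ^ 2 := by
    rw [hQn]
    positivity
  have h11 : w ^ 2 = 1 - α * β * ‖Q‖ ^ 2 := by
    rw [hw2, hQn, hα, hβ]
    field_simp
  have h12 : φ z * (w : ℂ) = 1 - (α : ℂ) * Q := by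
    have h13 : (α : ℂ) = ⟪K x, K z⟫_ℂ * ⟪K z, K x⟫_ℂ / (((‖K x‖ ^ 2 : ℝ) : ℂ) * ((‖K z‖ ^ 2 : ℝ) : ℂ)) := by
      rw [hα, ← inner_conj_symm (K z) (K x), Complex.mul_conj, Complex.normSq_eq_norm_sq]
      push_cast
      rfl
    have hne1 := hne x z
    have hne2 := hne z y
    have h14 : φ z * (w : ℂ) = (φ z * ((w : ℂ) * ⟪K z, K y⟫_ℂ)) / ⟪K z, K y⟫_ℂ := by
      field_simp
    rw [h14, h2, h13, hQ]
    push_cast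
    field_simp
  have h15 : ‖φ z * (w : ℂ)‖ ^ 2 ≤ (1 - α) * (1 - α * β * ‖Q‖ ^ 2) := by
    rw [norm_mul, mul_pow, Complex.norm_real, Real.norm_eq_abs, sq_abs, ← h11]
    exact mul_le_mul_of_nonneg_right h3 (sq_nonneg _)
  rw [h12] at h15
  have h16 : ‖1 - (α : ℂ) * Q‖ ^ 2 = 1 - 2 * α * Q.re + α ^ 2 * ‖Q‖ ^ 2 := by
    rw [← Complex.normSq_eq_norm_sq, ← Complex.normSq_eq_norm_sq, Complex.normSq_apply,
      Complex.normSq_apply]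
    simp only [Complex.sub_re, Complex.sub_im, Complex.one_re, Complex.one_im, Complex.mul_re,
      Complex.mul_im, Complex.ofReal_re, Complex.ofReal_im]
    ring
  rw [h16] at h15
  have h17 : α * (1 + ‖Q‖ ^ 2 * (α + β * (1 - α))) ≤ α * (2 * Q.re) := by nlinarith
  have h18 := le_of_mul_le_mul_left h17 hα0
  have h19 : 0 < ‖Q‖ ^ 2 * (α + β * (1 - α)) :=
    mul_pos hQ0 (by nlinarith [mul_nonneg hβ0.le (sub_nonneg.2 hα1)])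
  linarith

/-- The first part: the two point Pick property gives positivity. -/
theorem positiveFor_of_twoPointPick (K : X → H) (hne : ∀ x y, ⟪K x, K y⟫_ℂ ≠ 0)
    (hP : TwoPointPick K) (z : X) : PositiveFor K fun x => ⟪K x, K z⟫_ℂ := by
  refine ⟨fun x => hne x z, fun x y => ?_, K z, fun x => ?_⟩
  · have h1 := half_lt_re K hne hP z x y
    have h2 : ⟪K x, K y⟫_ℂ * ((‖K z‖ ^ 2 : ℝ) : ℂ) / (⟪K x, K z⟫_ℂ * ⟪K z, K y⟫_ℂ)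
        = ((‖K z‖ ^ 2 : ℝ) : ℂ) * (⟪K x, K y⟫_ℂ / (⟪K x, K z⟫_ℂ * ⟪K z, K y⟫_ℂ)) := by
      ring
    rw [h2, Complex.re_ofReal_mul] at h1
    have h3 : conj (⟪K y, K z⟫_ℂ) = ⟪K z, K y⟫_ℂ := inner_conj_symm _ _
    simp only
    rw [h3]
    by_contra h4
    have h5 := mul_nonneg_of_nonpos_of_nonpos (a := -(‖K z‖ ^ 2))
      (by linarith [sq_nonneg ‖K z‖]) (not_le.1 h4).le
    linarith
  · rw [div_self (hne x z)]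
    simp

/-- The second part: common factorisation of square summable families. -/
theorem factor [CompleteSpace H] {ι : Type*} (K : X → H) (δ : X → ℂ) (hδ : PositiveFor K δ)
    (f : ι → H) (hf : Summable fun i => ‖f i‖ ^ 2) (ε : ℝ) (hε : 0 < ε) :
    ∃ (g : H) (b : ι → X → ℂ), ‖g‖ ≤ √(2 * ∑' i, ‖f i‖ ^ 2) + ε ∧
      (∀ x, √(∑' i, ‖⟪K x, f i⟫_ℂ‖ ^ 2) / ‖δ x‖ < (⟪K x, g⟫_ℂ / δ x).re) ∧
      (∀ x, ⟪K x, g⟫_ℂ ≠ 0) ∧ (∀ i x, ⟪K x, f i⟫_ℂ = b i x * ⟪K x, g⟫_ℂ) ∧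
      ∀ x, Summable (fun i => ‖b i x‖ ^ 2) ∧ ∑' i, ‖b i x‖ ^ 2 ≤ 1 := by
  obtain ⟨hδ0, hδ1, h, hδ2⟩ := hδ
  obtain ⟨G, hG1, hG2⟩ := majorant K δ hδ0 hδ1 f hf
  set t : ℝ := ε / (‖h‖ + 1) with ht
  have ht0 : 0 < t := div_pos hε (by positivity)
  set g : H := G + (t : ℂ) • h with hg
  have hgx : ∀ x, (⟪K x, g⟫_ℂ / δ x).re = (⟪K x, G⟫_ℂ / δ x).re + t * (⟪K x, h⟫_ℂ / δ x).re := by
    intro x
    have h1 : ⟪K x, g⟫_ℂ / δ x = ⟪K x, G⟫_ℂ / δ x + (t : ℂ) * (⟪K x, h⟫_ℂ / δ x) := by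
      rw [hg, inner_add_right, inner_smul_right]
      ring
    rw [h1, Complex.add_re, Complex.re_ofReal_mul]
  have hlt : ∀ x, √(∑' i, ‖⟪K x, f i⟫_ℂ‖ ^ 2) / ‖δ x‖ < (⟪K x, g⟫_ℂ / δ x).re := by
    intro x
    rw [hgx]
    have h1 := hG2 x
    have h2 := mul_pos ht0 (hδ2 x)
    linarith
  have hne : ∀ x, ⟪K x, g⟫_ℂ ≠ 0 := by
    intro x h0
    have h1 := hlt x
    rw [h0, zero_div, Complex.zero_re] at h1
    have h2 : 0 ≤ √(∑' i, ‖⟪K x, f i⟫_ℂ‖ ^ 2) / ‖δ x‖ := by positivity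
    linarith
  have hs : ∀ x, Summable fun i => ‖⟪K x, f i⟫_ℂ‖ ^ 2 := by
    intro x
    refine Summable.of_nonneg_of_le (fun i => sq_nonneg _) (fun i => ?_) (hf.mul_left (‖K x‖ ^ 2))
    rw [← mul_pow]
    exact pow_le_pow_left₀ (norm_nonneg _) (norm_inner_le_norm _ _) 2
  refine ⟨g, fun i x => ⟪K x, f i⟫_ℂ / ⟪K x, g⟫_ℂ, ?_, hlt, hne, ?_, ?_⟩
  · refine (norm_add_le _ _).trans (add_le_add hG1 ?_)
    rw [norm_smul, Complex.norm_real, Real.norm_eq_abs, abs_of_pos ht0, ht,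
      div_mul_eq_mul_div, div_le_iff₀ (by positivity)]
    nlinarith [norm_nonneg h]
  · intro i x
    rw [div_mul_cancel₀ _ (hne x)]
  · intro x
    have h1 : ∀ i, ‖⟪K x, f i⟫_ℂ / ⟪K x, g⟫_ℂ‖ ^ 2
        = ‖⟪K x, f i⟫_ℂ‖ ^ 2 / ‖⟪K x, g⟫_ℂ‖ ^ 2 := by
      intro i
      rw [norm_div, div_pow]
    simp only [h1]
    refine ⟨(hs x).div_const _, ?_⟩
    rw [tsum_div_const]
    refine div_le_one_of_le₀ ?_ (sq_nonneg _)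
    have hdx : 0 < ‖δ x‖ := norm_pos_iff.2 (hδ0 x)
    have h2 : √(∑' i, ‖⟪K x, f i⟫_ℂ‖ ^ 2) / ‖δ x‖ ≤ ‖⟪K x, g⟫_ℂ‖ / ‖δ x‖ := by
      refine (hlt x).le.trans ((Complex.re_le_norm _).trans ?_)
      rw [norm_div]
    have h3 : √(∑' i, ‖⟪K x, f i⟫_ℂ‖ ^ 2) ≤ ‖⟪K x, g⟫_ℂ‖ :=
      (div_le_div_iff_of_pos_right hdx).1 h2
    have h4 := pow_le_pow_left₀ (Real.sqrt_nonneg _) h3 2
    rwa [Real.sq_sqrt (tsum_nonneg fun i => sq_nonneg _)] at h4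

end Pool.Agent.PMaj
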