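import Mathlib
import Pool.Agent.PMaj.Pick

/-!
# Positive majorants in reproducing kernel Hilbert spaces: the exact criterion
-/

open scoped InnerProductSpace ComplexOrder ComplexConjugate

namespace Pool.Agent.PMaj

variable {X : Type*} {H : Type*} [NormedAddCommGroup H] [InnerProductSpace ℂ H]

/-- Taking absolute values of the coefficients of a combination of the vectors
`K x / conj (δ x)` decreases the norm at most by the factor `C`. -/
def PhaseBound (K : X → H) (δ : X → ℂ) (C : ℝ) : Prop :=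
  ∀ (S : Finset X) (a : X → ℂ),
    ‖∑ x ∈ S, (a x / conj (δ x)) • K x‖ ≤ C * ‖∑ x ∈ S, ((‖a x‖ : ℂ) / conj (δ x)) • K x‖

/-- `G` is a positive majorant of `f` with respect to `δ`. -/
def Majorises (K : X → H) (δ : X → ℂ) (G f : H) : Prop :=
  ∀ x, ‖⟪K x, f⟫_ℂ / δ x‖ ≤ (⟪K x, G⟫_ℂ / δ x).re

lemma inner_comb (K : X → H) (δ : X → ℂ) (S : Finset X) (a : X → ℂ) (v : H) :
    ⟪∑ x ∈ S, (a x / conj (δ x)) • K x, v⟫_ℂ = ∑ x ∈ S, conj (a x) * (⟪K x, v⟫_ℂ / δ x) := by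
  rw [sum_inner]
  refine Finset.sum_congr rfl fun x _ => ?_
  rw [inner_smul_left, map_div₀, Complex.conj_conj]
  ring

/-- The pairing inequality. -/
lemma pairing {K : X → H} {δ : X → ℂ} {G f : H} (h : Majorises K δ G f) (S : Finset X)
    (a : X → ℂ) :
    ‖⟪∑ x ∈ S, (a x / conj (δ x)) • K x, f⟫_ℂ‖
      ≤ ‖∑ x ∈ S, ((‖a x‖ : ℂ) / conj (δ x)) • K x‖ * ‖G‖ := by
  have h1 : ‖⟪∑ x ∈ S, (a x / conj (δ x)) • K x, f⟫_ℂ‖
      ≤ ∑ x ∈ S, ‖a x‖ * (⟪K x, G⟫_ℂ / δ x).re := by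
    rw [inner_comb]
    refine (norm_sum_le _ _).trans (Finset.sum_le_sum fun x _ => ?_)
    rw [norm_mul, Complex.norm_conj]
    exact mul_le_mul_of_nonneg_left (h x) (norm_nonneg _)
  have h2 : ∑ x ∈ S, ‖a x‖ * (⟪K x, G⟫_ℂ / δ x).re
      = (⟪∑ x ∈ S, ((‖a x‖ : ℂ) / conj (δ x)) • K x, G⟫_ℂ).re := by
    rw [inner_comb K δ S (fun x => (‖a x‖ : ℂ)), Complex.re_sum]
    refine Finset.sum_congr rfl fun x _ => ?_
    rw [Complex.conj_ofReal, Complex.re_ofReal_mul]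
  rw [h2] at h1
  exact h1.trans ((Complex.re_le_norm _).trans (norm_inner_le_norm _ _))

/-- The quantitative criterion. -/
theorem phaseBound_iff [CompleteSpace H] (K : X → H) (δ : X → ℂ) (C : ℝ) (hC : 0 ≤ C) :
    PhaseBound K δ C ↔ ∀ f : H, ∃ G : H, ‖G‖ ≤ C * ‖f‖ ∧ Majorises K δ G f := by
  constructor
  · intro hP f
    set K' : X → H := fun x => conj ((δ x)⁻¹) • K x with hK'
    have h1 : ∀ (x : X) (v : H), ⟪K' x, v⟫_ℂ = ⟪K x, v⟫_ℂ / δ x := by
      intro x v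
      rw [hK']
      simp only
      rw [inner_smul_left, Complex.conj_conj]
      ring
    obtain ⟨G, hG1, hG2⟩ := exists_of_key K' (fun x => ‖⟪K' x, f⟫_ℂ‖) (C * ‖f‖)
      (mul_nonneg hC (norm_nonneg _)) (by
        intro S c hc
        -- choose the phases
        have h2 : ∀ x, ∃ e : ℂ, ‖e‖ = 1 ∧ conj e * ⟪K' x, f⟫_ℂ = (‖⟪K' x, f⟫_ℂ‖ : ℂ) := by
          intro x
          by_cases h0 : ⟪K' x, f⟫_ℂ = 0
          · exact ⟨1, by simp, by rw [h0]; simp⟩
          · refine ⟨⟪K' x, f⟫_ℂ / (‖⟪K' x, f⟫_ℂ‖ : ℂ), ?_, ?_⟩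
            · rw [norm_div, Complex.norm_real, norm_norm, div_self (norm_ne_zero_iff.2 h0)]
            · rw [map_div₀, Complex.conj_ofReal, div_mul_eq_mul_div,
                ← Complex.normSq_eq_conj_mul_self, Complex.normSq_eq_norm_sq]
              have h3 : (‖⟪K' x, f⟫_ℂ‖ : ℂ) ≠ 0 := by
                exact_mod_cast norm_ne_zero_iff.2 h0
              push_cast
              field_simp
        choose e he1 he2 using h2
        have h4 : ((∑ x ∈ S, c x * ‖⟪K' x, f⟫_ℂ‖ : ℝ) : ℂ)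
            = ⟪∑ x ∈ S, (((c x : ℂ) * e x) / conj (δ x)) • K x, f⟫_ℂ := by
          rw [inner_comb K δ S (fun x => (c x : ℂ) * e x)]
          push_cast
          refine Finset.sum_congr rfl fun x _ => ?_
          rw [← he2 x, map_mul, Complex.conj_ofReal, h1]
          ring
        have h5 : ∑ x ∈ S, c x * ‖⟪K' x, f⟫_ℂ‖
            ≤ ‖∑ x ∈ S, (((c x : ℂ) * e x) / conj (δ x)) • K x‖ * ‖f‖ := by
          have h6 : ∑ x ∈ S, c x * ‖⟪K' x, f⟫_ℂ‖
              ≤ ‖((∑ x ∈ S, c x * ‖⟪K' x, f⟫_ℂ‖ : ℝ) : ℂ)‖ := by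
            rw [Complex.norm_real]
            exact le_abs_self _
          rw [h4] at h6
          exact h6.trans (norm_inner_le_norm _ _)
        have h7 := hP S (fun x => (c x : ℂ) * e x)
        have h8 : ∑ x ∈ S, ((‖(c x : ℂ) * e x‖ : ℂ) / conj (δ x)) • K x
            = ∑ x ∈ S, (c x : ℂ) • K' x := by
          refine Finset.sum_congr rfl fun x hx => ?_
          rw [norm_mul, he1, mul_one, Complex.norm_real, Real.norm_eq_abs, abs_of_nonneg (hc x hx)]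
          simp only [hK']
          rw [smul_smul, map_inv₀]
          rfl
        rw [h8] at h7
        have h9 := mul_le_mul_of_nonneg_right h7 (norm_nonneg f)
        calc _ ≤ _ := h5
          _ ≤ _ := h9
          _ = _ := by ring)
    refine ⟨G, hG1, fun x => ?_⟩
    have h5 := hG2 x
    rwa [h1, h1] at h5
  · intro h S a
    set v : H := ∑ x ∈ S, (a x / conj (δ x)) • K x with hv
    obtain ⟨G, hG1, hG2⟩ := h v
    have h1 := pairing hG2 S a
    rw [← hv] at h1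
    have h2 : ‖⟪v, v⟫_ℂ‖ = ‖v‖ * ‖v‖ := by
      rw [inner_self_eq_norm_sq_to_K, norm_pow, sq]
      simp
    rw [h2] at h1
    by_cases h0 : ‖v‖ = 0
    · rw [h0]
      positivity
    · have h3 : 0 < ‖v‖ := lt_of_le_of_ne (norm_nonneg _) (Ne.symm h0)
      have h4 : ‖v‖ * ‖v‖ ≤ (C * ‖∑ x ∈ S, ((‖a x‖ : ℂ) / conj (δ x)) • K x‖) * ‖v‖ := by
        refine h1.trans ?_
        have := mul_le_mul_of_nonneg_left hG1
          (norm_nonneg (∑ x ∈ S, ((‖a x‖ : ℂ) / conj (δ x)) • K x))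
        linarith [this]
      exact le_of_mul_le_mul_right h4 h3

/-- The qualitative criterion. -/
theorem exists_phaseBound_iff [CompleteSpace H] (K : X → H) (δ : X → ℂ) :
    (∃ C : ℝ, PhaseBound K δ C) ↔ ∀ f : H, ∃ G : H, Majorises K δ G f := by
  constructor
  · rintro ⟨C, hC⟩ f
    have hC' : PhaseBound K δ (max C 0) := by
      intro S a
      exact (hC S a).trans (mul_le_mul_of_nonneg_right (le_max_left _ _) (norm_nonneg _))
    obtain ⟨G, -, hG⟩ := (phaseBound_iff K δ _ (le_max_right _ _)).1 hC' f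
    exact ⟨G, hG⟩
  · intro h
    let I := {p : Finset X × (X → ℂ) //
      0 < ‖∑ x ∈ p.1, ((‖p.2 x‖ : ℂ) / conj (δ x)) • K x‖}
    let v : I → H := fun p => ∑ x ∈ p.1.1, (p.1.2 x / conj (δ x)) • K x
    let w : I → H := fun p => ∑ x ∈ p.1.1, ((‖p.1.2 x‖ : ℂ) / conj (δ x)) • K x
    let g : I → H →L[ℂ] ℂ := fun p => innerSL ℂ (((‖w p‖⁻¹ : ℝ) : ℂ) • v p)
    have hg : ∀ f, ∃ C, ∀ p, ‖g p f‖ ≤ C := by
      intro f
      obtain ⟨G, hG⟩ := h f
      refine ⟨‖G‖, fun p => ?_⟩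
      have h1 := pairing hG p.1.1 p.1.2
      change ‖⟪((‖w p‖⁻¹ : ℝ) : ℂ) • v p, f⟫_ℂ‖ ≤ ‖G‖
      rw [inner_smul_left, norm_mul, Complex.norm_conj, Complex.norm_real, Real.norm_eq_abs,
        abs_of_nonneg (inv_nonneg.2 (norm_nonneg _))]
      rw [inv_mul_le_iff₀ p.2]
      exact h1
    obtain ⟨C, hC⟩ := banach_steinhaus hg
    refine ⟨C, fun S a => ?_⟩
    by_cases h0 : 0 < ‖∑ x ∈ S, ((‖a x‖ : ℂ) / conj (δ x)) • K x‖
    · have h1 := hC ⟨(S, a), h0⟩
      have h2 : ‖g ⟨(S, a), h0⟩‖ = ‖∑ x ∈ S, ((‖a x‖ : ℂ) / conj (δ x)) • K x‖⁻¹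
          * ‖∑ x ∈ S, (a x / conj (δ x)) • K x‖ := by
        change ‖innerSL ℂ (((‖w ⟨(S, a), h0⟩‖⁻¹ : ℝ) : ℂ) • v ⟨(S, a), h0⟩)‖ = _
        rw [innerSL_apply_norm, norm_smul, Complex.norm_real, Real.norm_eq_abs,
          abs_of_nonneg (inv_nonneg.2 (norm_nonneg _))]
      rw [h2, inv_mul_le_iff₀ h0] at h1
      linarith
    · have h3 : ‖∑ x ∈ S, ((‖a x‖ : ℂ) / conj (δ x)) • K x‖ = 0 :=
        le_antisymm (not_lt.1 h0) (norm_nonneg _)
      obtain ⟨G, hG⟩ := h (∑ x ∈ S, (a x / conj (δ x)) • K x)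
      have h1 := pairing hG S a
      rw [h3, zero_mul] at h1
      have h4 : ⟪∑ x ∈ S, (a x / conj (δ x)) • K x, ∑ x ∈ S, (a x / conj (δ x)) • K x⟫_ℂ = 0 :=
        norm_le_zero_iff.1 h1
      rw [inner_self_eq_zero.1 h4, h3]
      simp

/-- Kernels with nonnegative real part. -/
theorem phaseBound_sqrt_two (K : X → H) (δ : X → ℂ)
    (hK : ∀ x y, 0 ≤ (⟪K x, K y⟫_ℂ / (δ x * conj (δ y))).re) : PhaseBound K δ (√2) := by
  intro S a
  set K' : X → H := fun x => (conj (δ x))⁻¹ • K x with hK'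
  have h1 : ∀ x y, ⟪K' x, K' y⟫_ℂ = ⟪K x, K y⟫_ℂ / (δ x * conj (δ y)) := by
    intro x y
    simp only [hK']
    rw [inner_smul_left, inner_smul_right, map_inv₀, Complex.conj_conj, div_eq_mul_inv, mul_inv]
    ring
  have h2 : ∀ b : X → ℂ, ∑ x ∈ S, (b x / conj (δ x)) • K x = ∑ x ∈ S, b x • K' x := by
    intro b
    refine Finset.sum_congr rfl fun x _ => ?_
    simp only [hK']
    rw [smul_smul, div_eq_mul_inv]
  rw [h2, h2 fun x => (‖a x‖ : ℂ)]
  -- phases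
  have h3 : ∀ x, ∃ e : ℂ, ‖e‖ = 1 ∧ a x = (‖a x‖ : ℂ) * conj e := by
    intro x
    by_cases h0 : a x = 0
    · exact ⟨1, by simp, by rw [h0]; simp⟩
    · have h4 : (‖a x‖ : ℂ) ≠ 0 := by exact_mod_cast norm_ne_zero_iff.2 h0
      refine ⟨conj (a x / (‖a x‖ : ℂ)), ?_, ?_⟩
      · rw [Complex.norm_conj, norm_div, Complex.norm_real, norm_norm,
          div_self (norm_ne_zero_iff.2 h0)]
      · rw [Complex.conj_conj]
        field_simp
  choose e he1 he2 using h3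
  have h5 := doubling (ι := Unit) {()} K' (fun x y => by rw [h1]; exact hK x y) S
    (fun x => ‖a x‖) (fun x _ => norm_nonneg _) (fun x _ => e x) (fun x => by simp [he1])
  simp only [Finset.sum_singleton] at h5
  have h6 : ∑ x ∈ S, ((‖a x‖ : ℂ) * conj (e x)) • K' x = ∑ x ∈ S, a x • K' x :=
    Finset.sum_congr rfl fun x _ => by rw [← he2 x]
  rw [h6] at h5
  refine le_of_sq_le_sq ?_ (mul_nonneg (Real.sqrt_nonneg _) (norm_nonneg _)) |> id
  rw [mul_pow, Real.sq_sqrt (by norm_num)]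
  exact h5

/-- The constant one characterises the kernels with nonnegative values. -/
theorem phaseBound_one_iff (K : X → H) (δ : X → ℂ) :
    PhaseBound K δ 1 ↔ ∀ x y, 0 ≤ ⟪K x, K y⟫_ℂ / (δ x * conj (δ y)) := by
  classical
  set K' : X → H := fun x => (conj (δ x))⁻¹ • K x with hK'
  have h1 : ∀ x y, ⟪K' x, K' y⟫_ℂ = ⟪K x, K y⟫_ℂ / (δ x * conj (δ y)) := by
    intro x y
    simp only [hK']
    rw [inner_smul_left, inner_smul_right, map_inv₀, Complex.conj_conj, div_eq_mul_inv, mul_inv]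
    ring
  have h2 : ∀ (S : Finset X) (b : X → ℂ),
      ∑ x ∈ S, (b x / conj (δ x)) • K x = ∑ x ∈ S, b x • K' x := by
    intro S b
    refine Finset.sum_congr rfl fun x _ => ?_
    simp only [hK']
    rw [smul_smul, div_eq_mul_inv]
  constructor
  · intro h x y
    rw [← h1]
    by_cases hxy : x = y
    · subst hxy
      have h3 : ⟪K' x, K' x⟫_ℂ = ((‖K' x‖ ^ 2 : ℝ) : ℂ) := by
        rw [inner_self_eq_norm_sq_to_K]
        push_cast
        rfl
      rw [h3]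
      exact Complex.zero_le_real.2 (sq_nonneg _)
    · set q : ℂ := ⟪K' x, K' y⟫_ℂ with hq
      -- coefficients 1 and a phase
      obtain ⟨e, he1, he2⟩ : ∃ e : ℂ, ‖e‖ = 1 ∧ e * q = (‖q‖ : ℂ) := by
        by_cases h0 : q = 0
        · exact ⟨1, by simp, by rw [h0]; simp⟩
        · have h4 : (‖q‖ : ℂ) ≠ 0 := by exact_mod_cast norm_ne_zero_iff.2 h0
          refine ⟨conj (q / (‖q‖ : ℂ)), ?_, ?_⟩
          · rw [Complex.norm_conj, norm_div, Complex.norm_real, norm_norm,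
              div_self (norm_ne_zero_iff.2 h0)]
          · rw [map_div₀, Complex.conj_ofReal, div_mul_eq_mul_div,
              ← Complex.normSq_eq_conj_mul_self, Complex.normSq_eq_norm_sq]
            push_cast
            field_simp
      have h3 := h {x, y} (fun z => if z = x then 1 else e)
      rw [h2, h2 _ (fun z => ((‖(if z = x then (1 : ℂ) else e)‖ : ℝ) : ℂ)),
        Finset.sum_pair hxy, Finset.sum_pair hxy, if_pos rfl, if_neg (Ne.symm hxy), he1] at h3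
      simp only [norm_one, Complex.ofReal_one, one_smul, one_mul] at h3
      have h5 := pow_le_pow_left₀ (norm_nonneg _) h3 2
      rw [@norm_add_sq ℂ, @norm_add_sq ℂ, norm_smul e (K' y), he1, one_mul, inner_smul_right,
        ← hq, he2] at h5
      simp only [RCLike.re_to_complex, Complex.ofReal_re] at h5
      have h6 : ‖q‖ ≤ q.re := by linarith
      have h7 : q = (‖q‖ : ℂ) := by
        have h8 : q.re = ‖q‖ := le_antisymm (Complex.re_le_norm q) h6
        have h9 : q.im = 0 := by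
          have h10 := Complex.sq_norm q
          rw [Complex.normSq_apply, ← h8] at h10
          nlinarith
        apply Complex.ext
        · rw [Complex.ofReal_re, h8]
        · rw [Complex.ofReal_im, h9]
      rw [h7]
      exact_mod_cast norm_nonneg q
  · intro h S a
    rw [h2, h2 _ fun x => (‖a x‖ : ℂ), one_mul]
    refine le_of_sq_le_sq ?_ (norm_nonneg _) |> id
    rw [normsq_sum, normsq_sum K' S (fun x => (‖a x‖ : ℂ))]
    refine Finset.sum_le_sum fun x _ => Finset.sum_le_sum fun y _ => ?_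
    have h3 : 0 ≤ ⟪K' x, K' y⟫_ℂ := by rw [h1]; exact h x y
    obtain ⟨r, hr⟩ : ∃ r : ℝ, ⟪K' x, K' y⟫_ℂ = (r : ℂ) :=
      ⟨(⟪K' x, K' y⟫_ℂ).re, Complex.ext rfl (by
        rw [Complex.ofReal_im]
        exact (Complex.nonneg_iff.1 h3).2.symm)⟩
    have hr0 : 0 ≤ r := by
      rw [hr] at h3
      exact_mod_cast h3
    rw [hr, Complex.re_mul_ofReal, Complex.re_mul_ofReal]
    refine mul_le_mul_of_nonneg_right ?_ hr0
    refine (Complex.re_le_norm _).trans ?_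
    rw [norm_mul, Complex.norm_conj, Complex.conj_ofReal, ← Complex.ofReal_mul,
      Complex.ofReal_re]

/-- The factorisation from a phase bound. -/
theorem factor_of_phaseBound [CompleteSpace H] (K : X → H) (δ : X → ℂ) (hδ : ∀ x, δ x ≠ 0)
    (h : H) (hh : ∀ x, 0 < (⟪K x, h⟫_ℂ / δ x).re) (C : ℝ) (hC : 0 ≤ C) (hP : PhaseBound K δ C)
    (f : H) (ε : ℝ) (hε : 0 < ε) :
    ∃ (g : H) (b : X → ℂ), ‖g‖ ≤ C * ‖f‖ + ε ∧ (∀ x, ⟪K x, g⟫_ℂ ≠ 0) ∧
      (∀ x, 0 < (⟪K x, g⟫_ℂ / δ x).re) ∧ (∀ x, ‖b x‖ ≤ 1) ∧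
      ∀ x, ⟪K x, f⟫_ℂ = b x * ⟪K x, g⟫_ℂ := by
  obtain ⟨G, hG1, hG2⟩ := (phaseBound_iff K δ C hC).1 hP f
  set t : ℝ := ε / (‖h‖ + 1) with ht
  have ht0 : 0 < t := div_pos hε (by positivity)
  set g : H := G + (t : ℂ) • h with hg
  have hgx : ∀ x, (⟪K x, g⟫_ℂ / δ x).re = (⟪K x, G⟫_ℂ / δ x).re + t * (⟪K x, h⟫_ℂ / δ x).re := by
    intro x
    have h1 : ⟪K x, g⟫_ℂ / δ x = ⟪K x, G⟫_ℂ / δ x + (t : ℂ) * (⟪K x, h⟫_ℂ / δ x) := by
      rw [hg, inner_add_right, inner_smul_right]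
      ring
    rw [h1, Complex.add_re, Complex.re_ofReal_mul]
  have hlt : ∀ x, ‖⟪K x, f⟫_ℂ / δ x‖ < (⟪K x, g⟫_ℂ / δ x).re := by
    intro x
    rw [hgx]
    have h1 := hG2 x
    have h2 := mul_pos ht0 (hh x)
    linarith
  have hpos : ∀ x, 0 < (⟪K x, g⟫_ℂ / δ x).re := fun x => (norm_nonneg _).trans_lt (hlt x)
  have hne : ∀ x, ⟪K x, g⟫_ℂ ≠ 0 := by
    intro x h0
    have h1 := hpos x
    rw [h0, zero_div, Complex.zero_re] at h1
    exact lt_irrefl _ h1
  refine ⟨g, fun x => ⟪K x, f⟫_ℂ / ⟪K x, g⟫_ℂ, ?_, hne, hpos, fun x => ?_, fun x => ?_⟩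
  · refine (norm_add_le _ _).trans (add_le_add hG1 ?_)
    rw [norm_smul, Complex.norm_real, Real.norm_eq_abs, abs_of_pos ht0, ht,
      div_mul_eq_mul_div, div_le_iff₀ (by positivity)]
    nlinarith [norm_nonneg h]
  · rw [norm_div]
    refine div_le_one_of_le₀ ?_ (norm_nonneg _)
    have hdx : 0 < ‖δ x‖ := norm_pos_iff.2 (hδ x)
    have h2 : ‖⟪K x, f⟫_ℂ‖ / ‖δ x‖ ≤ ‖⟪K x, g⟫_ℂ‖ / ‖δ x‖ := by
      rw [← norm_div, ← norm_div]
      exact (hlt x).le.trans (Complex.re_le_norm _)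
    exact (div_le_div_iff_of_pos_right hdx).1 h2
  · rw [div_mul_cancel₀ _ (hne x)]

end Pool.Agent.PMaj
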