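import Mathlib
import Pool.Agent.PMaj.Pick

/-!
# The question posed is contained in the positive majorant theorem (a check, not a hand-in)
-/

open scoped InnerProductSpace Matrix ComplexOrder ComplexConjugate

namespace Pool.Agent.PMaj

/-- The complete Pick property, in the form of the problem, implies the scalar two point one. -/
theorem twoPointPick_of_complete {X H : Type*} [NormedAddCommGroup H] [InnerProductSpace ℂ H]
    (K : X → H)
    (h : ∀ (n r s : ℕ) (x : Fin n → X) (W : Fin n → Matrix (Fin r) (Fin s) ℂ),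
        Matrix.PosSemidef (Matrix.of (fun (p q : Fin n × Fin r) =>
          ((1 : Matrix (Fin r) (Fin r) ℂ) - W p.1 * (W q.1)ᴴ) p.2 q.2 *
            ⟪K (x p.1), K (x q.1)⟫_ℂ)) →
        ∃ Φ : X → Matrix (Fin r) (Fin s) ℂ,
          (∀ i : Fin n, Φ (x i) = W i) ∧
          ∀ v : Fin s → H, ∃ w : Fin r → H,
            (∀ (y : X) (a : Fin r), ∑ j : Fin s, Φ y a j * ⟪K y, v j⟫_ℂ = ⟪K y, w a⟫_ℂ) ∧
            ∑ a : Fin r, ‖w a‖ ^ 2 ≤ ∑ j : Fin s, ‖v j‖ ^ 2) :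
    TwoPointPick K := by
  intro x w hw
  obtain ⟨Φ, h1, h2⟩ := h 2 1 1 x (fun i => Matrix.of fun _ _ => w i) (by
    have h3 := hw.submatrix (fun p : Fin 2 × Fin 1 => p.1)
    convert h3 using 1
    ext p q
    obtain ⟨p1, p2⟩ := p
    obtain ⟨q1, q2⟩ := q
    have hp2 : p2 = 0 := Subsingleton.elim _ _
    have hq2 : q2 = 0 := Subsingleton.elim _ _
    subst hp2 hq2
    simp [Matrix.mul_apply])
  refine ⟨fun y => Φ y 0 0, fun i => ?_, fun v => ?_⟩
  · exact congrFun (congrFun (h1 i) 0) 0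
  · obtain ⟨u, hu1, hu2⟩ := h2 (fun _ => v)
    refine ⟨u 0, fun y => ?_, ?_⟩
    · have := hu1 y 0
      simpa using this
    · have h4 : ‖u 0‖ ^ 2 ≤ ‖v‖ ^ 2 := by simpa using hu2
      exact (pow_le_pow_iff_left₀ (norm_nonneg _) (norm_nonneg _) two_ne_zero).1 h4

/-- The posed question, in the form of the problem. -/
theorem posed (X : Type) (H : Type) [NormedAddCommGroup H] [InnerProductSpace ℂ H]
    [CompleteSpace H] (K : X → H) (hne : ∀ x y : X, ⟪K x, K y⟫_ℂ ≠ 0)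
    (h : ∀ (n r s : ℕ) (x : Fin n → X) (W : Fin n → Matrix (Fin r) (Fin s) ℂ),
        Matrix.PosSemidef (Matrix.of (fun (p q : Fin n × Fin r) =>
          ((1 : Matrix (Fin r) (Fin r) ℂ) - W p.1 * (W q.1)ᴴ) p.2 q.2 *
            ⟪K (x p.1), K (x q.1)⟫_ℂ)) →
        ∃ Φ : X → Matrix (Fin r) (Fin s) ℂ,
          (∀ i : Fin n, Φ (x i) = W i) ∧
          ∀ v : Fin s → H, ∃ w : Fin r → H,
            (∀ (y : X) (a : Fin r), ∑ j : Fin s, Φ y a j * ⟪K y, v j⟫_ℂ = ⟪K y, w a⟫_ℂ) ∧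
            ∑ a : Fin r, ‖w a‖ ^ 2 ≤ ∑ j : Fin s, ‖v j‖ ^ 2) (f : H) :
    ∃ b : X → ℂ, (∃ C : ℝ, ∀ y : X, ‖b y‖ ≤ C) ∧
        ∃ g : H, (∀ y : X, ⟪K y, g⟫_ℂ ≠ 0) ∧
          ∀ y : X, ⟪K y, f⟫_ℂ = b y * ⟪K y, g⟫_ℂ := by
  rcases isEmpty_or_nonempty X with hX | ⟨⟨z⟩⟩
  · exact ⟨fun _ => 0, ⟨0, fun y => (hX.false y).elim⟩, 0, fun y => (hX.false y).elim,
      fun y => (hX.false y).elim⟩
  · obtain ⟨g, b, -, -, h1, h2, h3⟩ := factor K _
      (positiveFor_of_twoPointPick K hne (twoPointPick_of_complete K h) z)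
      (fun _ : Unit => f) (Summable.of_finite) 1 one_pos
    refine ⟨b (), ⟨1, fun y => ?_⟩, g, h1, h2 ()⟩
    have h4 := (h3 y).2
    rw [tsum_fintype] at h4
    simp only [Finset.univ_unique, Finset.sum_singleton] at h4
    exact (sq_le_one_iff₀ (norm_nonneg _)).1 h4

end Pool.Agent.PMaj
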